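import Pool.Agent.Lib.MP_0aa0f2_co.Proof

open Pool.Agent.Lib.MP_0aa0f2_co

/-- There is a non-trivial upcycle with word length other than 4 and 8: a binary one for n = 16. -/
theorem Pool.Agent.Results.MP_0aa0f2_co.Sixteen.result :
    ∃ a n N : ℕ, 2 ≤ a ∧ 1 ≤ n ∧ n ≠ 4 ∧ n ≠ 8 ∧ 1 ≤ N ∧
      ∃ u : ZMod N → Option (Fin a), IsUpcycle n u :=
  ⟨2, 16, 32768, by norm_num, by norm_num, by norm_num, by norm_num, by norm_num, cyc S, main⟩
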